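import Pool.Agent.Lib.MP_a1cc03_ag.Stmt2

/-!
# Planes on cubic hypersurfaces (MP_a1cc03_ag): definitions

`W 0, …, W (n-1)` are Weierstrass curves over `K` with Weierstrass forms `F_0, …, F_(n-1)` in three variables.
`X` is the cubic hypersurface `F_0(x_0) + … + F_(n-1)(x_(n-1)) = 0` in the projective space of all
`x : Fin n → Fin 3 → K`. If `P_k` is a point of `W k` then the linear space spanned by `P_0, …, P_(n-1)`, of
dimension `n - 1`, is contained in `X`.
-/

noncomputable section

namespace Pool.Agent.ZC

open WeierstrassCurve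

variable {K : Type} [Field K] {n : ℕ}

/-- The Weierstrass form `Y²Z + a₁XYZ + a₃YZ² - X³ - a₂X²Z - a₄XZ² - a₆Z³`. -/
def cubicForm (W : WeierstrassCurve K) (u : Fin 3 → K) : K :=
  u 1 ^ 2 * u 2 + W.a₁ * u 0 * u 1 * u 2 + W.a₃ * u 1 * u 2 ^ 2
    - (u 0 ^ 3 + W.a₂ * u 0 ^ 2 * u 2 + W.a₄ * u 0 * u 2 ^ 2 + W.a₆ * u 2 ^ 3)

/-- Homogeneous coordinates of a point: `(0, 1, 0)` and `(x, y, 1)`. -/
def homCoord {W : WeierstrassCurve K} : W.toAffine.Point → Fin 3 → K
  | .zero => ![0, 1, 0]
  | .some x y _ => ![x, y, 1]

/-- `ℙ(V)` is a linear subspace of dimension `n - 1` of the cubic hypersurface `∑ F_k(x_k) = 0`. -/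
def IsPlaneOn (W : Fin n → WeierstrassCurve K) (V : Submodule K (Fin n → Fin 3 → K)) : Prop :=
  Module.finrank K V = n ∧ ∀ x ∈ V, ∑ k, cubicForm (W k) (x k) = 0

/-- The reduction of a subspace over `F` at the place `v` of `F/K`. -/
def reduction {F : Type} [Field F] [Algebra K F] (v : Place K F)
    (V : Submodule F (Fin n → Fin 3 → F)) : Submodule K (Fin n → Fin 3 → K) where
  carrier := {x | ∃ y ∈ V, ∀ k i, 0 < v.ord (y k i - algebraMap K F (x k i))}
  add_mem' := by
    rintro x x' ⟨y, hy, h⟩ ⟨y', hy', h'⟩
    refine ⟨y + y', V.add_mem hy hy', fun k i => ?_⟩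
    have e : (y + y') k i - algebraMap K F ((x + x') k i) =
        (y k i - algebraMap K F (x k i)) + (y' k i - algebraMap K F (x' k i)) := by
      simp only [Pi.add_apply, map_add]; ring
    rw [e]
    exact lt_of_lt_of_le (lt_min (h k i) (h' k i)) (v.ord.map_add _ _)
  zero_mem' := ⟨0, V.zero_mem, fun k i => by simp⟩
  smul_mem' := by
    rintro c x ⟨y, hy, h⟩
    refine ⟨algebraMap K F c • y, V.smul_mem _ hy, fun k i => ?_⟩
    have e : (algebraMap K F c • y) k i - algebraMap K F ((c • x) k i) =
        algebraMap K F c * (y k i - algebraMap K F (x k i)) := by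
      simp only [Pi.smul_apply, smul_eq_mul, map_mul]; ring
    rw [e, v.ord.map_mul]
    by_cases hc : c = 0
    · subst hc; simp
    · rw [v.ord_const c hc, zero_add]; exact h k i

/-- Formal `ℤ`-linear combinations of linear subspaces of the projective space of all `x : Fin n → Fin 3 → K`. -/
def PlaneCycles (K : Type) [Field K] (n : ℕ) : Type :=
  FreeAbelianGroup (Submodule K (Fin n → Fin 3 → K))

instance : AddCommGroup (PlaneCycles K n) := instAddCommGroupFreeAbelianGroup _

/-- The combination consisting of the subspace `V` with coefficient `1`. -/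
def planeCycle (V : Submodule K (Fin n → Fin 3 → K)) : PlaneCycles K n := FreeAbelianGroup.of V

/-- The sum of the coefficients. -/
def planeDegree : PlaneCycles K n →+ ℤ := FreeAbelianGroup.lift fun _ => 1

/-- The cycles `∑_v ord_v(f) [V(v)]` given by a one-parameter family `V` of linear subspaces of dimension
`n - 1` of `X` (a linear subspace of `X` over the function field `F` of a curve, `V(v)` its reduction at the
place `v`) and a nonzero function `f` on the curve. -/
inductive IsPlaneFamily (W : Fin n → WeierstrassCurve K) : PlaneCycles K n → Prop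
  | mk (F : Type) [Field F] [Algebra K F] (hF : IsFunctionField K F)
      (V : Submodule F (Fin n → Fin 3 → F))
      (hV : IsPlaneOn (fun k => (W k).map (algebraMap K F)) V) (f : F) (hf : f ≠ 0) :
      IsPlaneFamily W (∑ᶠ v : Place K F, (v.ord f).untopD 0 • planeCycle (reduction v V))

/-- The subgroup generated by these cycles: all its elements are rationally equivalent to zero on `X` (and, as
zero-cycles, on the variety of linear subspaces of dimension `n - 1` of `X`). -/
def RatPlanes (W : Fin n → WeierstrassCurve K) : AddSubgroup (PlaneCycles K n) :=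
  AddSubgroup.closure {z | IsPlaneFamily W z}

/-- The linear space spanned by the points `x k`, `k < n`. -/
def joinPlane {W : Fin n → WeierstrassCurve K} (x : ∀ k, (W k).toAffine.Point) :
    Submodule K (Fin n → Fin 3 → K) :=
  Submodule.span K (Set.range fun k => Pi.single k (homCoord (x k)))

/-- The combinations of the linear spaces spanned by points `x k` of the curves `E (j k)` such that
`x k ∈ A (j k)` and `x l ∈ A (j l)` for some `k ≠ l` and some system `A` of the set `T`. -/
def PairPlanes [DecidableEq K] {ι : Type} (E : ι → WeierstrassCurve K)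
    (T : Set (∀ i, AddSubgroup (E i).toAffine.Point)) (j : Fin n → ι) :
    AddSubgroup (PlaneCycles K n) :=
  AddSubgroup.closure {z | ∃ x : ∀ k, (E (j k)).toAffine.Point,
    (∃ k l, k ≠ l ∧ ∃ A ∈ T, x k ∈ A (j k) ∧ x l ∈ A (j l)) ∧ z = planeCycle (joinPlane x)}

end Pool.Agent.ZC
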