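import Pool.Agent.Lib.MP_a1cc03_ag.A7_Fibre

/-! # The function `(Y - 1) / (Y - 2)` on the projective line -/

open scoped Polynomial

noncomputable section

namespace Pool.Agent.ZC.CJ

open WeierstrassCurve

/-- The field `F = K(Y)` and the places `Y = 1` and `Y = 2`, with `τ = (Y - 1) / (Y - 2)`. -/
theorem exists_line (K : Type) [Field K] [IsAlgClosed K] [CharZero K] :
    ∃ (F : Type) (_ : Field F) (_ : Algebra K F) (τ : F) (v₁ v₂ : Place K F),
      IsFunctionField K F ∧ τ ≠ 0 ∧ Ev v₁ τ 0 ∧ Ev v₂ τ⁻¹ 0 ∧
      ∀ {M : Type} [AddCommGroup M] (g : Place K F → M),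
        ∑ᶠ v : Place K F, (v.ord τ).untopD 0 • g v = g v₁ - g v₂ := by
  classical
  have hX : ¬ IsSquare (algebraMap K[X] (RatFunc K) (Polynomial.X : K[X])) :=
    not_isSquare_of_simple_root Polynomial.X 0 (by simp) (by simp)
  obtain ⟨F, iF, iA, s, Y, h⟩ := exists_dcover (Polynomial.X : K[X]) hX
  have hrel : Y ^ 2 = s := by
    have := h.rel
    rwa [Polynomial.aeval_X] at this
  have h2 : (2 : K) ≠ 0 := two_ne_zero
  have h12 : (1 : K) ≠ 2 := by
    intro h0
    have : (1 : K) + 1 = 1 := by rw [one_add_one_eq_two, ← h0]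
    exact one_ne_zero (add_eq_left.1 this)
  obtain ⟨v₁, h1s, h1Y⟩ := exists_place h (a := 1) (d := 1) one_ne_zero (by simp)
  obtain ⟨v₂, h2s, h2Y⟩ := exists_place h (a := 4) (d := 2) h2 (by
    rw [Polynomial.eval_X]
    norm_num)
  have hs1 : s - algebraMap K F 1 = (Y - algebraMap K F 1) * (Y + algebraMap K F 1) := by
    rw [← hrel, map_one]
    ring
  have hs2 : s - algebraMap K F 4 = (Y - algebraMap K F 2) * (Y + algebraMap K F 2) := by
    rw [← hrel]
    have : algebraMap K F 4 = algebraMap K F 2 * algebraMap K F 2 := by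
      rw [← map_mul]
      norm_num
    rw [this]
    ring
  have hv1 : v₁.ord (Y - algebraMap K F 1) = 1 := by
    rw [hs1, AddValuation.map_mul, (h1Y.add (Ev.const v₁ 1)).ord_eq_zero (by
      rw [one_add_one_eq_two]; exact h2), add_zero] at h1s
    exact h1s
  have hv2 : v₂.ord (Y - algebraMap K F 2) = 1 := by
    rw [hs2, AddValuation.map_mul, (h2Y.add (Ev.const v₂ 2)).ord_eq_zero (by
      norm_num), add_zero] at h2s
    exact h2s
  have hY1 : Y - algebraMap K F 1 ≠ 0 := by
    intro h0
    rw [h0, AddValuation.map_zero] at hv1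
    exact WithTop.top_ne_coe (a := (1 : ℤ)) hv1
  have hY2 : Y - algebraMap K F 2 ≠ 0 := by
    intro h0
    rw [h0, AddValuation.map_zero] at hv2
    exact WithTop.top_ne_coe (a := (1 : ℤ)) hv2
  have hv12 : v₁ ≠ v₂ := fun hh => h12 (h1Y.unique (hh ▸ h2Y))
  set τ : F := (Y - algebraMap K F 1) / (Y - algebraMap K F 2) with hτ
  have hτ0 : τ ≠ 0 := div_ne_zero hY1 hY2
  have hτmul : τ * (Y - algebraMap K F 2) = Y - algebraMap K F 1 := div_mul_cancel₀ _ hY2
  have hord : ∀ v : Place K F, v.ord τ + v.ord (Y - algebraMap K F 2)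
      = v.ord (Y - algebraMap K F 1) := by
    intro v
    rw [← AddValuation.map_mul, hτmul]
  have o1 : v₁.ord τ = 1 := by
    have := hord v₁
    rwa [hv1, (h1Y.sub (Ev.const v₁ 2)).ord_eq_zero (sub_ne_zero.2 h12), add_zero] at this
  have aux : ∀ x : WithTop ℤ, x + 1 = 0 → x = ((-1 : ℤ) : WithTop ℤ) := by
    intro x hx
    induction x with
    | top => simp at hx
    | coe n =>
      have : ((n + 1 : ℤ) : WithTop ℤ) = ((0 : ℤ) : WithTop ℤ) := by
        rw [WithTop.coe_add]; exact hx
      rw [WithTop.coe_eq_coe] at this ⊢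
      omega
  have o2 : v₂.ord τ = ((-1 : ℤ) : WithTop ℤ) := by
    have := hord v₂
    rw [hv2, (h2Y.sub (Ev.const v₂ 1)).ord_eq_zero (sub_ne_zero.2 h12.symm)] at this
    exact aux _ this
  have o2' : v₂.ord τ⁻¹ = 1 := by
    have e : v₂.ord τ⁻¹ + v₂.ord τ = 0 := by
      rw [← AddValuation.map_mul, inv_mul_cancel₀ hτ0, AddValuation.map_one]
    rw [o2] at e
    generalize v₂.ord τ⁻¹ = x at e
    induction x with
    | top => simp at e
    | coe n =>
      have : ((n + -1 : ℤ) : WithTop ℤ) = ((0 : ℤ) : WithTop ℤ) := by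
        rw [WithTop.coe_add]; exact e
      rw [WithTop.coe_eq_coe] at this
      have h3 : n = 1 := by omega
      rw [h3]
      rfl
  refine ⟨F, iF, iA, τ, v₁, v₂, h.isFunctionField, hτ0, Ev.of_ord_pos (by rw [o1]; exact zero_lt_one),
    Ev.of_ord_pos (by rw [o2']; exact zero_lt_one), ?_⟩
  intro M _ g
  have hsupp : (Function.support fun v : Place K F => (v.ord τ).untopD 0 • g v) ⊆
      (({v₁, v₂} : Finset (Place K F)) : Set (Place K F)) := by
    intro v hv
    rw [Function.mem_support] at hv
    simp only [Finset.coe_insert, Finset.coe_singleton, Set.mem_insert_iff, Set.mem_singleton_iff]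
    by_cases hva : Ev v Y 1
    · left
      have hs : Ev v s 1 := by
        have := hva.pow 2
        rwa [hrel, one_pow] at this
      have hs' : Ev v₁ s 1 := by
        have := h1Y.pow 2
        rwa [hrel, one_pow] at this
      exact place_unique h (a := 1) (d := 1) one_ne_zero (by simp) hs hva hs' h1Y
    · by_cases hvb : Ev v Y 2
      · right
        have h4 : (2 : K) ^ 2 = 4 := by norm_num
        have hs : Ev v s 4 := by
          have := hvb.pow 2
          rwa [hrel, h4] at this
        have hs' : Ev v₂ s 4 := by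
          have := h2Y.pow 2
          rwa [hrel, h4] at this
        exact place_unique h (a := 4) (d := 2) h2 (by
          rw [Polynomial.eval_X]
          norm_num) hs hvb hs' h2Y
      · exfalso
        apply hv
        have h1 := A7_ord_eq h12 v hva hvb
        have h2 := hord v
        have h3 : v.ord (Y - algebraMap K F 2) ≠ ⊤ := by
          rw [Ne, AddValuation.top_iff]; exact hY2
        have h4 : v.ord τ = 0 := by
          rw [h1] at h2
          generalize v.ord (Y - algebraMap K F 2) = y at h2 h3
          generalize v.ord τ = x at h2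
          induction y with
          | top => exact absurd rfl h3
          | coe m =>
            induction x with
            | top => simp at h2
            | coe n =>
              rw [← WithTop.coe_add, WithTop.coe_eq_coe] at h2
              have : n = 0 := by omega
              rw [this]; rfl
        rw [h4]
        simp
  rw [finsum_eq_sum_of_support_subset _ hsupp, Finset.sum_insert (by simp [hv12]),
    Finset.sum_singleton, o1, o2]
  have hone : (1 : WithTop ℤ).untopD 0 = (1 : ℤ) := rfl
  have hneg : (((-1 : ℤ) : WithTop ℤ)).untopD 0 = (-1 : ℤ) := rfl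
  rw [hone, hneg, one_smul, neg_smul, one_smul, sub_eq_add_neg]

end Pool.Agent.ZC.CJ
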