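import Pool.Agent.Lib.MP_a1cc03_ag.CJ.Tangent
import Pool.Agent.Lib.MP_a1cc03_ag.AU.Prod

/-! # Planes on cubic hypersurfaces: the main theorem -/

noncomputable section

namespace Pool.Agent.ZC.CJ

open WeierstrassCurve

section

variable {K : Type} [Field K] {n : ℕ}

theorem planeDegree_planeCycle (V : Submodule K (Fin n → Fin 3 → K)) : planeDegree (planeCycle V) = 1 :=
  FreeAbelianGroup.lift_apply_of _ _

/-- The cycles whose class is torsion modulo `RatPlanes`. -/
def TorsPlanes (W : Fin n → WeierstrassCurve K) :
    AddSubgroup (PlaneCycles K n) where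
  carrier := {z | ∃ N : ℕ, 0 < N ∧ N • z ∈ RatPlanes W}
  add_mem' := by
    rintro a b ⟨N, hN, hNa⟩ ⟨M, hM, hMb⟩
    refine ⟨N * M, Nat.mul_pos hN hM, ?_⟩
    rw [smul_add]
    refine add_mem ?_ ?_
    · rw [mul_comm N M, mul_smul]
      exact AddSubgroup.nsmul_mem _ hNa M
    · rw [mul_smul]
      exact AddSubgroup.nsmul_mem _ hMb N
  zero_mem' := ⟨1, one_pos, by simp⟩
  neg_mem' := by
    rintro a ⟨N, hN, hNa⟩
    exact ⟨N, hN, by rw [smul_neg]; exact neg_mem hNa⟩

theorem ratPlanes_le (W : Fin n → WeierstrassCurve K) : RatPlanes W ≤ TorsPlanes W :=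
  fun z hz => ⟨1, one_pos, by rwa [one_smul]⟩

theorem torsPlanes_of_nsmul {W : Fin n → WeierstrassCurve K}
    {z : PlaneCycles K n} {m : ℕ} (hm : 0 < m)
    (h : m • z ∈ TorsPlanes W) : z ∈ TorsPlanes W := by
  obtain ⟨N, hN, h⟩ := h
  exact ⟨N * m, Nat.mul_pos hN hm, by rwa [mul_smul]⟩

theorem map_tors [IsAlgClosed K] {W : Fin n → WeierstrassCurve K}
    {z : FreeAbelianGroup (∀ k, (W k).toAffine.Point)} (hz : z ∈ TorsPi W) :
    planeMap W z ∈ TorsPlanes W := by
  obtain ⟨N, hN, h⟩ := hz
  refine ⟨N, hN, ?_⟩
  rw [← map_nsmul]
  exact map_joinPlane_mem W h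

end

variable {K : Type} [Field K] [IsAlgClosed K] [CharZero K] [DecidableEq K] {n : ℕ}

/-- If the coordinate `l` of `x` is `O` then the class of the plane does not depend on the coordinate `k`. -/
theorem axis_rel (W : Fin n → WeierstrassCurve K) [∀ i, (W i).IsElliptic]
    (x : ∀ k, (W k).toAffine.Point) {k l : Fin n} (hkl : k ≠ l) (hl : x l = 0)
    (P : (W k).toAffine.Point) :
    planeCycle (joinPlane (Function.update x k P))
      - planeCycle (joinPlane (Function.update x k 0)) ∈ TorsPlanes W := by
  obtain ⟨π, hπ⟩ : ∃ π : PlaneCycles K n →+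
      PlaneCycles K n ⧸ TorsPlanes W,
      ∀ z, π z = 0 ↔ z ∈ TorsPlanes W :=
    ⟨QuotientAddGroup.mk' (TorsPlanes W), fun z => by
      rw [QuotientAddGroup.mk'_apply, QuotientAddGroup.eq_zero_iff]⟩
  obtain ⟨f, hf⟩ : ∃ f : (W k).toAffine.Point → PlaneCycles K n,
      ∀ P, f P = planeCycle (joinPlane (Function.update x k P))
        - planeCycle (joinPlane (Function.update x k 0)) := ⟨_, fun P => rfl⟩
  have hadd : ∀ P Q, π (f (P + Q)) = π (f P) + π (f Q) := by
    intro P Q
    have h1 := ratPlanes_le W (map_joinPlane_mem W (single_rel W x k P Q))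
    simp only [map_add, map_sub, planeMap_of] at h1
    have h2 := (hπ _).2 h1
    rw [← sub_eq_zero, ← neg_eq_zero, ← h2, hf, hf, hf]
    simp only [map_add, map_sub]
    abel
  let χ : (W k).toAffine.Point →+ PlaneCycles K n ⧸ TorsPlanes W :=
    AddMonoidHom.mk' (fun P => π (f P)) hadd
  have hχ : ∀ P, χ P = π (f P) := fun P => rfl
  have htf : ∀ P (m : ℕ), 0 < m → m • χ P = 0 → χ P = 0 := by
    intro P m hm h
    rw [hχ, ← map_nsmul] at h
    rw [hχ, hπ]
    exact torsPlanes_of_nsmul hm ((hπ _).1 h)
  have key : χ P = 0 := by
    rcases P with _ | ⟨a, b, h⟩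
    · exact map_zero χ
    · by_cases h2 : 2 • (Affine.Point.some a b h : (W k).toAffine.Point) = 0
      · refine htf _ 2 two_pos ?_
        rw [← map_nsmul, h2, map_zero]
      · obtain ⟨a', b', h', hneg, hform⟩ := tangent_form (W k) h h2
        have h3 : -(2 • χ (.some a b h)) = χ (.some a b h) → χ (.some a b h) = 0 := by
          intro h4
          refine htf _ 3 three_pos ?_
          have h5 : (3 : ℕ) • χ (.some a b h) = 2 • χ (.some a b h) + χ (.some a b h) := by
            rw [← succ_nsmul]
          rw [h5]
          nth_rewrite 2 [← h4]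
          rw [add_neg_cancel]
        by_cases haa : a' = a
        · subst haa
          rcases Affine.Y_eq_of_X_eq h'.1 h.1 rfl with h4 | h4
          · apply h3
            subst h4
            rw [← map_nsmul, ← map_neg, hneg]
          · have h5 : -(2 • (Affine.Point.some a' b h : (W k).toAffine.Point))
                = -(Affine.Point.some a' b h : (W k).toAffine.Point) := by
              rw [hneg, Affine.Point.neg_some]
              subst h4
              rfl
            have h6 := congrArg χ h5
            rw [map_neg, map_neg, map_nsmul, neg_inj, two_nsmul] at h6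
            exact add_eq_left.1 h6
        · apply h3
          have h4 := (hπ _).2 (ratPlanes_le W (tangent_rel W x hkl hl h h' haa hform))
          rw [map_sub, sub_eq_zero] at h4
          rw [← map_nsmul, ← map_neg, hneg, hχ, hχ, hf, hf, map_sub, map_sub, h4]
  rw [hχ, hπ, hf] at key
  exact key

/-- All planes with one point `O` are rationally equivalent up to torsion. -/
theorem zero_rel (W : Fin n → WeierstrassCurve K) [∀ i, (W i).IsElliptic]
    (x : ∀ k, (W k).toAffine.Point) {l : Fin n} (hl : x l = 0) :
    planeCycle (joinPlane x) - planeCycle (joinPlane (0 : ∀ k, (W k).toAffine.Point))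
      ∈ TorsPlanes W := by
  have key : ∀ s : Finset (Fin n), planeCycle (joinPlane x)
      - planeCycle (joinPlane (fun k => if k ∈ s then 0 else x k)) ∈ TorsPlanes W := by
    intro s
    induction s using Finset.induction_on with
    | empty =>
      have e : (fun k => if k ∈ (∅ : Finset (Fin n)) then 0 else x k) = x := by
        funext k
        simp
      rw [e, sub_self]
      exact zero_mem _
    | insert k s hk ih =>
      by_cases hkl : k = l
      · have e : (fun i => if i ∈ insert k s then 0 else x i) = fun i => if i ∈ s then 0 else x i := by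
          funext i
          by_cases hi : i = k
          · subst hi
            subst hkl
            simp [hk, hl]
          · simp [hi]
        rw [e]
        exact ih
      · have h1 := axis_rel W (fun i => if i ∈ s then 0 else x i) hkl (by
          by_cases h : l ∈ s
          · rw [if_pos h]
          · rw [if_neg h, hl]) (x k)
        have e1 : Function.update (fun i => if i ∈ s then 0 else x i) k (x k)
            = fun i => if i ∈ s then 0 else x i := by
          funext i
          by_cases hi : i = k
          · subst hi
            rw [Function.update_self, if_neg hk]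
          · rw [Function.update_of_ne hi]
        have e2 : Function.update (fun i => if i ∈ s then 0 else x i) k 0
            = fun i => if i ∈ insert k s then 0 else x i := by
          funext i
          by_cases hi : i = k
          · subst hi
            rw [Function.update_self, if_pos (Finset.mem_insert_self _ _)]
          · rw [Function.update_of_ne hi]
            simp [hi]
        rw [e1, e2] at h1
        have h2 := add_mem ih h1
        rwa [sub_add_sub_cancel] at h2
  have h := key Finset.univ
  have e : (fun k => if k ∈ (Finset.univ : Finset (Fin n)) then 0 else x k)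
      = (0 : ∀ k, (W k).toAffine.Point) := by
    funext k
    rw [if_pos (Finset.mem_univ k), Pi.zero_apply]
  rwa [e] at h

/-- If the zero-cycle `[x] - [x; x_l = O] - [x; x_k = O] + [x; x_k = x_l = O]` is torsion, then the class of the
plane of `x` is equal up to torsion to that of the plane spanned by the points `O`. -/
theorem pair_plane (W : Fin n → WeierstrassCurve K) [∀ i, (W i).IsElliptic]
    (x : ∀ k, (W k).toAffine.Point) {k l : Fin n}
    (h : FreeAbelianGroup.of x - FreeAbelianGroup.of (Function.update x l 0)
      - FreeAbelianGroup.of (Function.update x k 0)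
      + FreeAbelianGroup.of (Function.update (Function.update x k 0) l 0) ∈ TorsPi W) :
    planeCycle (joinPlane x) - planeCycle (joinPlane (0 : ∀ k, (W k).toAffine.Point))
      ∈ TorsPlanes W := by
  have h0 := map_tors h
  simp only [map_add, map_sub, planeMap_of] at h0
  have h1 := zero_rel W (Function.update x l 0) (l := l) (Function.update_self ..)
  have h2 := zero_rel W (Function.update x k 0) (l := k) (Function.update_self ..)
  have h3 := zero_rel W (Function.update (Function.update x k 0) l 0) (l := l)
    (Function.update_self ..)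
  have h4 := sub_mem (add_mem (add_mem h0 h1) h2) h3
  convert h4 using 1
  abel

/-- The main theorem on planes on cubic hypersurfaces. -/
theorem main_cubic [DecidableEq (AlgebraicClosure ℚ)] {p : ℕ} (hp : p.Prime) (hp2 : p ≠ 2)
    {ι : Type} (E : ι → WeierstrassCurve (AlgebraicClosure ℚ)) [∀ i, (E i).IsElliptic]
    (hj : ∀ i, PIntegral p (E i).j) :
    ∃ T : Set (∀ i, AddSubgroup (E i).toAffine.Point),
      (∀ i (P : (E i).toAffine.Point), ∃ A ∈ T, P ∈ A i) ∧
      (∀ A ∈ T, (∀ i, ∃ u : ℕ → A i, LinearIndependent ℤ u) ∧
        (∀ i (a : (E i).toAffine.Point) (m : ℕ), 0 < m → m • a ∈ A i → a ∈ A i) ∧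
        (∀ i i' (φ : (E i).toAffine.Point →+ (E i').toAffine.Point), IsHom (E i) (E i') φ →
          ∀ a ∈ A i, φ a ∈ A i')) ∧
      ∀ (n : ℕ) (j : Fin n → ι),
        (∀ x : ∀ k, (E (j k)).toAffine.Point, IsPlaneOn (fun k => E (j k)) (joinPlane x)) ∧
        ∀ z ∈ PairPlanes E T j, planeDegree z = 0 →
          ∃ N : ℕ, 0 < N ∧ N • z ∈ RatPlanes (fun k => E (j k)) := by
  obtain ⟨T, hcov, hT, hprod⟩ := AU.main_product_union hp hp2 E hj
  refine ⟨T, hcov, hT, fun n j => ⟨fun x => joinPlane_isPlaneOn x, fun z hz hdeg => ?_⟩⟩
  have key : ∀ z ∈ PairPlanes E T j,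
      z - (planeDegree z) • planeCycle (joinPlane (0 : ∀ k, (E (j k)).toAffine.Point))
        ∈ TorsPlanes (fun k => E (j k)) := by
    intro z hz
    induction hz using AddSubgroup.closure_induction with
    | mem z hz =>
      obtain ⟨x, ⟨k, l, hkl, A, hA, hk, hl⟩, rfl⟩ := hz
      rw [planeDegree_planeCycle, one_smul]
      refine pair_plane (fun k => E (j k)) x (k := k) (l := l) ?_
      set c : ∀ k, (E (j k)).toAffine.Point := Function.update (Function.update x k 0) l 0 with hc
      have hxc : ∀ i, i ≠ k → i ≠ l → c i = x i := by
        intro i hik hil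
        rw [hc, Function.update_of_ne hil, Function.update_of_ne hik]
      have hck : c k = 0 := by
        rw [hc, Function.update_of_ne hkl, Function.update_self]
      have hcl : c l = 0 := by
        rw [hc, Function.update_self]
      have hmem : ∀ y : ∀ k, (E (j k)).toAffine.Point, (∀ i, i ≠ k → i ≠ l → y i = x i) →
          y k ∈ A (j k) → y l ∈ A (j l) → FreeAbelianGroup.of y ∈ AddSubgroup.closure
          (FreeAbelianGroup.of '' {x | ∃ A ∈ T, ∀ k, x k - c k ∈ A (j k)}) := by
        intro y hy hyk hyl
        refine AddSubgroup.subset_closure ⟨y, ⟨A, hA, fun i => ?_⟩, rfl⟩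
        by_cases hik : i = k
        · subst hik
          rw [hck, sub_zero]
          exact hyk
        · by_cases hil : i = l
          · subst hil
            rw [hcl, sub_zero]
            exact hyl
          · rw [hxc i hik hil, hy i hik hil, sub_self]
            exact zero_mem _
      refine hprod n j c _ (add_mem (sub_mem (sub_mem (hmem x (fun _ _ _ => rfl) hk hl)
        (hmem _ (fun i _ hil => Function.update_of_ne hil _ _) ?_ ?_))
        (hmem _ (fun i hik _ => Function.update_of_ne hik _ _) ?_ ?_))
        (hmem c hxc ?_ ?_)) ?_ ?_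
      · rw [Function.update_of_ne hkl]
        exact hk
      · rw [Function.update_self]
        exact zero_mem _
      · rw [Function.update_self]
        exact zero_mem _
      · rw [Function.update_of_ne hkl.symm]
        exact hl
      · rw [hck]
        exact zero_mem _
      · rw [hcl]
        exact zero_mem _
      · simp [degree]
      · funext i
        simp only [albanese, map_add, map_sub, FreeAbelianGroup.lift_apply_of, Pi.add_apply,
          Pi.sub_apply, Pi.zero_apply]
        by_cases hik : i = k
        · subst hik
          rw [Function.update_of_ne hkl, Function.update_self, hck]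
          abel
        · by_cases hil : i = l
          · subst hil
            rw [Function.update_of_ne hik, Function.update_self, hcl]
            abel
          · rw [Function.update_of_ne hik, Function.update_of_ne hil, hxc i hik hil]
            abel
    | zero =>
      rw [map_zero, zero_smul, sub_zero]
      exact zero_mem _
    | add z z' _ _ hz hz' =>
      rw [map_add, add_smul, add_sub_add_comm]
      exact add_mem hz hz'
    | neg z _ hz =>
      rw [map_neg, neg_smul, ← neg_sub', neg_mem_iff]
      exact hz
  have h := key z hz
  rw [hdeg, zero_smul, sub_zero] at h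
  exact h

end Pool.Agent.ZC.CJ
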