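import Pool.Agent.Lib.MP_a1cc03_ag.CJ.Red
import Pool.Agent.Lib.MP_a1cc03_ag.A3_Spec

/-! # The planes spanned by points; push-forward of rational equivalence -/

noncomputable section

namespace Pool.Agent.ZC.CJ

open WeierstrassCurve

section

variable {K : Type} [Field K] {n : ℕ}

theorem homCoord_ne_zero {W : WeierstrassCurve K} (P : W.toAffine.Point) : homCoord P ≠ 0 := by
  rcases P with _ | ⟨x, y, h⟩
  · intro h0
    have := congrFun h0 1
    simp [homCoord] at this
  · intro h0
    have := congrFun h0 2
    simp [homCoord] at this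

theorem cubicForm_homCoord {W : WeierstrassCurve K} (P : W.toAffine.Point) :
    cubicForm W (homCoord P) = 0 := by
  rcases P with _ | ⟨x, y, h⟩
  · simp [homCoord, cubicForm]
  · have h1 := (Affine.equation_iff x y).1 h.1
    simp only [homCoord, cubicForm, Matrix.cons_val_zero, Matrix.cons_val_one, Matrix.cons_val]
    linear_combination h1

theorem cubicForm_smul (W : WeierstrassCurve K) (c : K) (u : Fin 3 → K) :
    cubicForm W (c • u) = c ^ 3 * cubicForm W u := by
  simp only [cubicForm, Pi.smul_apply, smul_eq_mul]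
  ring

/-- Nonzero vectors in different blocks are independent. -/
theorem blocks_independent (u : Fin n → Fin 3 → K) (hu : ∀ k, u k ≠ 0) :
    LinearIndependent K (fun k => (Pi.single k (u k) : Fin n → Fin 3 → K)) := by
  rw [Fintype.linearIndependent_iff]
  intro c hc k
  have h1 := congrFun hc k
  have h2 : (∑ i, c i • (Pi.single i (u i) : Fin n → Fin 3 → K)) k = c k • u k := by
    rw [Finset.sum_apply, Finset.sum_eq_single k]
    · rw [Pi.smul_apply, Pi.single_eq_same]
    · intro i _ hi
      rw [Pi.smul_apply, Pi.single_eq_of_ne (Ne.symm hi), smul_zero]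
    · intro h
      exact absurd (Finset.mem_univ k) h
  rw [h2] at h1
  rcases smul_eq_zero.1 h1 with h | h
  · exact h
  · exact absurd h (hu k)

/-- The coordinates of an element of the span of vectors in different blocks. -/
theorem mem_blocks {u : Fin n → Fin 3 → K} {y : Fin n → Fin 3 → K}
    (hy : y ∈ Submodule.span K (Set.range fun k => (Pi.single k (u k) : Fin n → Fin 3 → K))) :
    ∀ k, ∃ c : K, y k = c • u k := by
  rw [Submodule.mem_span_range_iff_exists_fun] at hy
  obtain ⟨c, rfl⟩ := hy
  intro k
  refine ⟨c k, ?_⟩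
  rw [Finset.sum_apply, Finset.sum_eq_single k]
  · rw [Pi.smul_apply, Pi.single_eq_same]
  · intro i _ hi
    rw [Pi.smul_apply, Pi.single_eq_of_ne (Ne.symm hi), smul_zero]
  · intro h
    exact absurd (Finset.mem_univ k) h

/-- The planes spanned by points are contained in the cubic hypersurface. -/
theorem joinPlane_isPlaneOn {W : Fin n → WeierstrassCurve K} (x : ∀ k, (W k).toAffine.Point) :
    IsPlaneOn W (joinPlane x) := by
  constructor
  · have h := finrank_span_eq_card (blocks_independent (fun k => homCoord (x k))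
      fun k => homCoord_ne_zero (x k))
    rw [Fintype.card_fin] at h
    exact h
  · intro y hy
    refine Finset.sum_eq_zero fun k _ => ?_
    obtain ⟨c, hc⟩ := mem_blocks hy k
    rw [hc, cubicForm_smul, cubicForm_homCoord, mul_zero]

end

section

variable {K F : Type} [Field K] [Field F] [Algebra K F] {n : ℕ}

/-- Scaling the vectors does not change the span. -/
theorem span_scaled (w : Fin n → Fin n → Fin 3 → F) (c : Fin n → F) (hc : ∀ k, c k ≠ 0) :
    Submodule.span F (Set.range fun k => c k • w k) = Submodule.span F (Set.range w) := by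
  apply le_antisymm
  · rw [Submodule.span_le]
    rintro _ ⟨k, rfl⟩
    exact Submodule.smul_mem _ _ (Submodule.subset_span ⟨k, rfl⟩)
  · rw [Submodule.span_le]
    rintro _ ⟨k, rfl⟩
    have h : w k = (c k)⁻¹ • (c k • w k) := by
      rw [smul_smul, inv_mul_cancel₀ (hc k), one_smul]
    rw [h]
    exact Submodule.smul_mem _ _ (Submodule.subset_span ⟨k, rfl⟩)

/-- If `x` has a pole then `y` has a pole of larger order. -/
theorem ord_div_pos (v : Place K F) (W : WeierstrassCurve K) {x y : F}
    (h : (W.map (algebraMap K F)).toAffine.Equation x y) (hx : v.ord x < 0) :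
    y ≠ 0 ∧ 0 < v.ord (x / y) ∧ 0 < v.ord (1 / y) := by
  have hx0 : x ≠ 0 := by
    rintro rfl
    rw [AddValuation.map_zero] at hx
    exact absurd hx (not_lt.2 le_top)
  have hxi : 0 < v.ord x⁻¹ := by
    have e : v.ord x⁻¹ + v.ord x = 0 := by
      rw [← AddValuation.map_mul, inv_mul_cancel₀ hx0, AddValuation.map_one]
    by_contra hle
    push Not at hle
    have h4 : v.ord x⁻¹ + v.ord x < 0 := by
      calc v.ord x⁻¹ + v.ord x ≤ 0 + v.ord x := add_le_add_left hle _
        _ = v.ord x := zero_add _
        _ < 0 := hx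
    rw [e] at h4
    exact lt_irrefl _ h4
  have hE : Ev v x⁻¹ (0 : K) := Ev.of_ord_pos hxi
  rw [Affine.equation_iff] at h
  simp only [map_a₁, map_a₂, map_a₃, map_a₄, map_a₆] at h
  -- with `r = y / x`, `s = 1 / x`: `s r² + a₁ s r + a₃ s² r = 1 + a₂ s + a₄ s² + a₆ s³`
  set s := x⁻¹ with hs
  set r := y / x with hr
  have hsx : s * x = 1 := inv_mul_cancel₀ hx0
  have hy : y = r * x := by rw [hr, div_mul_cancel₀ _ hx0]
  have hrel : s * r ^ 2 + algebraMap K F W.a₁ * s * r + algebraMap K F W.a₃ * s ^ 2 * r
      = 1 + algebraMap K F W.a₂ * s + algebraMap K F W.a₄ * s ^ 2 + algebraMap K F W.a₆ * s ^ 3 := by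
    have h1 : x = s⁻¹ := by rw [hs, inv_inv]
    have hs0 : s ≠ 0 := inv_ne_zero hx0
    rw [hy, h1] at h
    field_simp at h
    linear_combination h
  -- `r` has a pole
  have hrneg : ¬ 0 ≤ v.ord r := by
    intro hr0
    have h1 : 0 < v.ord (s * r ^ 2 + algebraMap K F W.a₁ * s * r
        + algebraMap K F W.a₃ * s ^ 2 * r) := by
      have e : s * r ^ 2 + algebraMap K F W.a₁ * s * r + algebraMap K F W.a₃ * s ^ 2 * r
          = (r ^ 2 + algebraMap K F W.a₁ * r + algebraMap K F W.a₃ * s * r) * s := by ring
      rw [e, AddValuation.map_mul]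
      refine A1_pos ?_ hxi
      have hs0 : 0 ≤ v.ord s := hxi.le
      have t1 : 0 ≤ v.ord (r ^ 2) := by
        rw [pow_two, AddValuation.map_mul]
        exact add_nonneg hr0 hr0
      have t2 : 0 ≤ v.ord (algebraMap K F W.a₁ * r) := by
        rw [AddValuation.map_mul]
        exact add_nonneg (ord_algebraMap_nonneg v _) hr0
      have t3 : 0 ≤ v.ord (algebraMap K F W.a₃ * s * r) := by
        rw [AddValuation.map_mul, AddValuation.map_mul]
        exact add_nonneg (add_nonneg (ord_algebraMap_nonneg v _) hs0) hr0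
      exact v.ord.map_le_add (v.ord.map_le_add t1 t2) t3
    rw [hrel] at h1
    have h2 : Ev v (1 + algebraMap K F W.a₂ * s + algebraMap K F W.a₄ * s ^ 2
        + algebraMap K F W.a₆ * s ^ 3) (1 + W.a₂ * 0 + W.a₄ * 0 ^ 2 + W.a₆ * 0 ^ 3) :=
      ((((Ev.one v).add ((Ev.const v _).mul hE))).add ((Ev.const v _).mul (hE.pow 2))).add
        ((Ev.const v _).mul (hE.pow 3))
    have h3 := h2.unique (Ev.of_ord_pos h1)
    simp at h3
  have hr0 : r ≠ 0 := by
    intro h0
    apply hrneg
    rw [h0, AddValuation.map_zero]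
    exact le_top
  have hri : 0 < v.ord r⁻¹ := by
    have e : v.ord r⁻¹ + v.ord r = 0 := by
      rw [← AddValuation.map_mul, inv_mul_cancel₀ hr0, AddValuation.map_one]
    by_contra hle
    push Not at hle hrneg
    have h4 : v.ord r⁻¹ + v.ord r < 0 := by
      calc v.ord r⁻¹ + v.ord r ≤ 0 + v.ord r := add_le_add_left hle _
        _ = v.ord r := zero_add _
        _ < 0 := hrneg
    rw [e] at h4
    exact lt_irrefl _ h4
  have hy0 : y ≠ 0 := by
    rw [hy]
    exact mul_ne_zero hr0 hx0
  refine ⟨hy0, ?_, ?_⟩
  · have e : x / y = r⁻¹ := by rw [hr, inv_div]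
    rw [e]
    exact hri
  · have e : 1 / y = r⁻¹ * s := by
      rw [hr, hs, inv_div, div_mul_eq_mul_div, mul_inv_cancel₀ hx0]
    rw [e, AddValuation.map_mul]
    exact A1_pos hri.le hxi

/-- Homogeneous coordinates of an `F`-point, scaled so that they reduce to those of its value. -/
theorem exists_scaled_coord (v : Place K F) (W : WeierstrassCurve K)
    {P : (W.map (algebraMap K F)).toAffine.Point} {a : W.toAffine.Point}
    (h : Specializes v W P a) :
    ∃ c : F, c ≠ 0 ∧ ∀ i, Ev v (c * homCoord P i) (homCoord a i) := by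
  have hz : Ev v (0 : F) (0 : K) := by
    have := Ev.const v (0 : K)
    rwa [map_zero] at this
  cases h with
  | zero_zero =>
    refine ⟨1, one_ne_zero, fun i => ?_⟩
    rw [one_mul]
    change Ev v ((![0, 1, 0] : Fin 3 → F) i) ((![0, 1, 0] : Fin 3 → K) i)
    fin_cases i
    · exact hz
    · exact Ev.one v
    · exact hz
  | some_zero x y hxy hx =>
    obtain ⟨hy0, h1, h2⟩ := ord_div_pos v W hxy.1 hx
    refine ⟨1 / y, one_div_ne_zero hy0, fun i => ?_⟩
    change Ev v (1 / y * (![x, y, 1] : Fin 3 → F) i) ((![0, 1, 0] : Fin 3 → K) i)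
    fin_cases i
    · change Ev v (1 / y * x) 0
      rw [one_div_mul_eq_div]
      exact Ev.of_ord_pos h1
    · change Ev v (1 / y * y) 1
      rw [one_div_mul_cancel hy0]
      exact Ev.one v
    · change Ev v (1 / y * 1) 0
      rw [mul_one]
      exact Ev.of_ord_pos h2
  | some_some x y hxy a b hab ha hb =>
    refine ⟨1, one_ne_zero, fun i => ?_⟩
    rw [one_mul]
    change Ev v ((![x, y, 1] : Fin 3 → F) i) ((![a, b, 1] : Fin 3 → K) i)
    fin_cases i
    · exact ha
    · exact hb
    · exact Ev.one v

/-- The reduction of the plane spanned by `F`-points. -/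
theorem reduction_joinPlane [IsAlgClosed K] (hF : IsFunctionField K F) (v : Place K F)
    (W : Fin n → WeierstrassCurve K) (P : ∀ k, ((W k).map (algebraMap K F)).toAffine.Point)
    (s : ∀ k, (W k).toAffine.Point) (hs : ∀ k, Specializes v (W k) (P k) (s k)) :
    reduction v (joinPlane P) = joinPlane s := by
  choose c hc0 hc using fun k => exists_scaled_coord v (W k) (hs k)
  unfold joinPlane
  rw [← span_scaled (fun k => Pi.single k (homCoord (P k))) c hc0]
  refine reduction_span hF v _ _ ?_ (blocks_independent (fun k => homCoord (s k))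
      fun k => homCoord_ne_zero (s k))
  intro a k i
  by_cases hk : k = a
  · subst hk
    simp only [Pi.smul_apply, Pi.single_eq_same, smul_eq_mul]
    exact hc k i
  · simp only [Pi.smul_apply, Pi.single_eq_of_ne hk, Pi.zero_apply, smul_eq_mul, mul_zero]
    have := Ev.const v (0 : K)
    rwa [map_zero] at this

end

/-- The homomorphism `[x] ↦ [Π(x)]`. -/
def planeMap {K : Type} [Field K] {n : ℕ} (W : Fin n → WeierstrassCurve K) :
    FreeAbelianGroup (∀ k, (W k).toAffine.Point) →+ PlaneCycles K n :=
  FreeAbelianGroup.lift fun x => planeCycle (joinPlane x)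

theorem planeMap_of {K : Type} [Field K] {n : ℕ} (W : Fin n → WeierstrassCurve K)
    (x : ∀ k, (W k).toAffine.Point) :
    planeMap W (FreeAbelianGroup.of x) = planeCycle (joinPlane x) :=
  FreeAbelianGroup.lift_apply_of _ _

/-- The planes of rationally equivalent zero-cycles. -/
theorem map_joinPlane_mem {K : Type} [Field K] [IsAlgClosed K] {n : ℕ}
    (W : Fin n → WeierstrassCurve K) {z : FreeAbelianGroup (∀ k, (W k).toAffine.Point)}
    (hz : z ∈ RatEqPi W) : planeMap W z ∈ RatPlanes W := by
  unfold RatEqPi at hz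
  induction hz using AddSubgroup.closure_induction with
  | mem x hx =>
    obtain ⟨F, hF, P, s, hs, f, hf⟩ := hx
    by_cases hfin : (Function.support fun v : Place K F =>
        (v.ord f).untopD 0 • FreeAbelianGroup.of (s v)).Finite
    · have e : planeMap W (∑ᶠ v : Place K F,
          (v.ord f).untopD 0 • FreeAbelianGroup.of (s v)) =
          ∑ᶠ v : Place K F, (v.ord f).untopD 0 • planeCycle (reduction v (joinPlane P)) := by
        rw [AddMonoidHom.map_finsum _ hfin]
        refine finsum_congr fun v => ?_
        rw [map_zsmul, planeMap_of, reduction_joinPlane hF v W P (s v) (hs v)]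
      rw [e]
      exact AddSubgroup.subset_closure
        (IsPlaneFamily.mk F hF (joinPlane P) (joinPlane_isPlaneOn P) f hf)
    · rw [finsum_of_infinite_support hfin, map_zero]
      exact zero_mem _
  | zero => rw [map_zero]; exact zero_mem _
  | add x y _ _ hx hy => rw [map_add]; exact add_mem hx hy
  | neg x _ hx => rw [map_neg]; exact neg_mem hx

end Pool.Agent.ZC.CJ
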