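import Pool.Agent.Lib.MP_a1cc03_ag.CJ.Defs
import Pool.Agent.Lib.MP_a1cc03_ag.A2_Residue
import Pool.Agent.Lib.MP_a1cc03_ag.A1_Ev

/-! # Reduction of the span of vectors with independent reductions -/

noncomputable section

namespace Pool.Agent.ZC.CJ

open WeierstrassCurve

variable {K F : Type} [Field K] [Field F] [Algebra K F] {n m : ℕ}

theorem ev_sum {v : Place K F} {α : Type} (s : Finset α) (g : α → F) (b : α → K)
    (h : ∀ a ∈ s, Ev v (g a) (b a)) : Ev v (∑ a ∈ s, g a) (∑ a ∈ s, b a) := by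
  classical
  induction s using Finset.induction_on with
  | empty =>
    rw [Finset.sum_empty, Finset.sum_empty]
    have := Ev.const v (0 : K)
    rwa [map_zero] at this
  | insert a s ha ih =>
    rw [Finset.sum_insert ha, Finset.sum_insert ha]
    exact (h a (Finset.mem_insert_self a s)).add
      (ih fun b hb => h b (Finset.mem_insert_of_mem hb))

/-- Scaling of a nonzero coefficient vector: coefficients `d a`, one of them `1`, with values `d₀ a`. -/
theorem exists_scaled [IsAlgClosed K] (hF : IsFunctionField K F) (v : Place K F) (c : Fin m → F)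
    (a₁ : Fin m) (h1 : c a₁ ≠ 0) :
    ∃ (a₀ : Fin m) (d₀ : Fin m → K), c a₀ ≠ 0 ∧ d₀ a₀ = 1 ∧ (∀ a, v.ord (c a₀) ≤ v.ord (c a)) ∧
      ∀ a, Ev v (c a / c a₀) (d₀ a) := by
  have : Nonempty (Fin m) := ⟨a₁⟩
  obtain ⟨a₀, ha₀⟩ := Finite.exists_min fun a => v.ord (c a)
  have h0 : c a₀ ≠ 0 := by
    intro h
    have h2 := ha₀ a₁
    rw [h, AddValuation.map_zero, top_le_iff, AddValuation.top_iff] at h2
    exact h1 h2
  have hfin : v.ord (c a₀) ≠ ⊤ := by
    rw [Ne, AddValuation.top_iff]
    exact h0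
  have hd : ∀ a, 0 ≤ v.ord (c a / c a₀) := by
    intro a
    have e : v.ord (c a / c a₀) + v.ord (c a₀) = v.ord (c a) := by
      rw [← AddValuation.map_mul, div_mul_cancel₀ _ h0]
    have h2 := ha₀ a
    rw [← e] at h2
    by_contra hlt
    push Not at hlt
    have h3 := WithTop.add_lt_add_right hfin hlt
    rw [zero_add] at h3
    exact absurd h2 (not_le.2 h3)
  choose d₀ hd₀ using fun a => exists_ev hF v _ (hd a)
  refine ⟨a₀, d₀, h0, ?_, ha₀, hd₀⟩
  have h3 := hd₀ a₀
  rw [div_self h0] at h3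
  exact h3.unique (Ev.one v)

/-- The values of a combination. -/
theorem ev_comb {v : Place K F} (w : Fin m → Fin n → Fin 3 → F) (w₀ : Fin m → Fin n → Fin 3 → K)
    (hw : ∀ a k i, Ev v (w a k i) (w₀ a k i)) (d : Fin m → F) (d₀ : Fin m → K)
    (hd : ∀ a, Ev v (d a) (d₀ a)) (k : Fin n) (i : Fin 3) :
    Ev v ((∑ a, d a • w a) k i) ((∑ a, d₀ a • w₀ a) k i) := by
  have e1 : (∑ a, d a • w a) k i = ∑ a, d a * w a k i := by
    simp [Finset.sum_apply]
  have e2 : (∑ a, d₀ a • w₀ a) k i = ∑ a, d₀ a * w₀ a k i := by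
    simp [Finset.sum_apply]
  rw [e1, e2]
  exact ev_sum _ _ _ fun a _ => (hd a).mul (hw a k i)

theorem linearIndependent_of_reduction [IsAlgClosed K] (hF : IsFunctionField K F) (v : Place K F)
    (w : Fin m → Fin n → Fin 3 → F) (w₀ : Fin m → Fin n → Fin 3 → K)
    (hw : ∀ a k i, Ev v (w a k i) (w₀ a k i)) (hli : LinearIndependent K w₀) :
    LinearIndependent F w := by
  rw [Fintype.linearIndependent_iff]
  intro c hc
  by_contra hne
  push Not at hne
  obtain ⟨a₁, h1⟩ := hne
  obtain ⟨a₀, d₀, h0, hd1, -, hd⟩ := exists_scaled hF v c a₁ h1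
  have h2 : ∑ a, (c a / c a₀) • w a = 0 := by
    have : ∑ a, (c a / c a₀) • w a = (c a₀)⁻¹ • ∑ a, c a • w a := by
      rw [Finset.smul_sum]
      refine Finset.sum_congr rfl fun a _ => ?_
      rw [smul_smul, div_eq_inv_mul]
    rw [this, hc, smul_zero]
  have h3 : ∑ a, d₀ a • w₀ a = 0 := by
    funext k i
    have h4 := ev_comb w w₀ hw _ d₀ hd k i
    rw [h2] at h4
    have h5 := Ev.const v (0 : K)
    rw [map_zero] at h5
    exact h4.unique h5
  have h6 := Fintype.linearIndependent_iff.1 hli d₀ h3 a₀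
  rw [hd1] at h6
  exact one_ne_zero h6

theorem reduction_span [IsAlgClosed K] (hF : IsFunctionField K F) (v : Place K F)
    (w : Fin m → Fin n → Fin 3 → F) (w₀ : Fin m → Fin n → Fin 3 → K)
    (hw : ∀ a k i, Ev v (w a k i) (w₀ a k i)) (hli : LinearIndependent K w₀) :
    reduction v (Submodule.span F (Set.range w)) = Submodule.span K (Set.range w₀) := by
  apply le_antisymm
  · rintro x ⟨y, hy, hyx⟩
    rw [Submodule.mem_span_range_iff_exists_fun] at hy
    obtain ⟨c, rfl⟩ := hy
    -- the coefficients are integral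
    have hint : ∀ a, 0 ≤ v.ord (c a) := by
      by_contra hneg
      push Not at hneg
      obtain ⟨a₁, h1⟩ := hneg
      have h1' : c a₁ ≠ 0 := by
        intro h
        rw [h, AddValuation.map_zero] at h1
        exact absurd h1 (not_lt.2 le_top)
      obtain ⟨a₀, d₀, h0, hd1, hmin, hd⟩ := exists_scaled hF v c a₁ h1'
      have hlt : v.ord (c a₀) < 0 := lt_of_le_of_lt (hmin a₁) h1
      have h2 : ∑ a, (c a / c a₀) • w a = (c a₀)⁻¹ • ∑ a, c a • w a := by
        rw [Finset.smul_sum]
        refine Finset.sum_congr rfl fun a _ => ?_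
        rw [smul_smul, div_eq_inv_mul]
      have hinv : 0 < v.ord (c a₀)⁻¹ := by
        have e : v.ord (c a₀)⁻¹ + v.ord (c a₀) = 0 := by
          rw [← AddValuation.map_mul, inv_mul_cancel₀ h0, AddValuation.map_one]
        by_contra hle
        push Not at hle
        have h4 : v.ord (c a₀)⁻¹ + v.ord (c a₀) < 0 := by
          calc v.ord (c a₀)⁻¹ + v.ord (c a₀) ≤ 0 + v.ord (c a₀) := add_le_add_left hle _
            _ = v.ord (c a₀) := zero_add _
            _ < 0 := hlt
        rw [e] at h4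
        exact lt_irrefl _ h4
      have h3 : ∑ a, d₀ a • w₀ a = 0 := by
        funext k i
        have h4 := ev_comb w w₀ hw _ d₀ hd k i
        rw [h2] at h4
        have h5 : Ev v (((c a₀)⁻¹ • ∑ a, c a • w a) k i) 0 := by
          have h6 : Ev v ((c a₀)⁻¹ * (∑ a, c a • w a) k i) (0 * x k i) :=
            (Ev.of_ord_pos hinv).mul (hyx k i)
          rw [zero_mul] at h6
          exact h6
        exact h4.unique h5
      have h6 := Fintype.linearIndependent_iff.1 hli d₀ h3 a₀
      rw [hd1] at h6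
      exact one_ne_zero h6
    choose c₀ hc₀ using fun a => exists_ev hF v _ (hint a)
    rw [Submodule.mem_span_range_iff_exists_fun]
    refine ⟨c₀, ?_⟩
    funext k i
    exact (ev_comb w w₀ hw c c₀ hc₀ k i).unique (hyx k i)
  · rw [Submodule.span_le]
    rintro _ ⟨a, rfl⟩
    exact ⟨w a, Submodule.subset_span ⟨a, rfl⟩, fun k i => hw a k i⟩

end Pool.Agent.ZC.CJ
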