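import Pool.Agent.Lib.MP_a1cc03_ag.CJ.Plane
import Pool.Agent.Lib.MP_a1cc03_ag.CJ.Line

/-! # The tangent at a point -/

noncomputable section

namespace Pool.Agent.ZC.CJ

open WeierstrassCurve

/-- The Weierstrass form on the tangent at `P = (a, b)`, with coordinates `α` at `P` and `β` at `-2P`. -/
theorem tangent_form {K : Type} [Field K] [DecidableEq K] (W : WeierstrassCurve K) {a b : K}
    (h : W.toAffine.Nonsingular a b)
    (h2 : 2 • (Affine.Point.some a b h : W.toAffine.Point) ≠ 0) :
    ∃ (a' b' : K) (h' : W.toAffine.Nonsingular a' b'),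
      -(2 • (Affine.Point.some a b h : W.toAffine.Point)) = .some a' b' h' ∧
      ∀ (F : Type) [Field F] [Algebra K F] (α β : F),
        cubicForm (W.map (algebraMap K F)) (fun i =>
          α * algebraMap K F ((![a, b, 1] : Fin 3 → K) i)
            + β * algebraMap K F ((![a', b', 1] : Fin 3 → K) i))
          = algebraMap K F ((a' - a) ^ 3) * α * β ^ 2 := by
  have hy : b ≠ W.toAffine.negY a b := by
    intro hy
    apply h2
    rw [two_nsmul]
    exact Affine.Point.add_self_of_Y_eq hy
  have hD : b - W.toAffine.negY a b ≠ 0 := sub_ne_zero.2 hy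
  have hadd := Affine.Point.add_self_of_Y_ne (h₁ := h) hy
  set ℓ := W.toAffine.slope a a b b with hℓ
  have hℓe : ℓ * (2 * b + W.a₁ * a + W.a₃) = 3 * a ^ 2 + 2 * W.a₂ * a + W.a₄ - W.a₁ * b := by
    rw [hℓ, Affine.slope_of_Y_ne rfl hy]
    have hD' : b - W.toAffine.negY a b = 2 * b + W.a₁ * a + W.a₃ := by
      rw [Affine.negY]
      ring
    rw [← hD', div_mul_cancel₀ _ hD]
  have hE := (Affine.equation_iff a b).1 h.1
  refine ⟨W.toAffine.addX a a ℓ, W.toAffine.negY (W.toAffine.addX a a ℓ)
    (W.toAffine.addY a a b ℓ), ?_, ?_, ?_⟩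
  · exact (Affine.nonsingular_neg ..).2 (Affine.nonsingular_add h h fun hxy => hy hxy.right)
  · rw [two_nsmul, hadd]
    rfl
  · intro F _ _ α β
    have e1 : W.toAffine.negY (W.toAffine.addX a a ℓ) (W.toAffine.addY a a b ℓ)
        = ℓ * (W.toAffine.addX a a ℓ - a) + b := by
      simp only [Affine.addY, Affine.negAddY, Affine.negY]
      ring
    have e2 : W.toAffine.addX a a ℓ = ℓ ^ 2 + W.a₁ * ℓ - W.a₂ - 2 * a := by
      simp only [Affine.addX]
      ring
    rw [e1]
    generalize W.toAffine.addX a a ℓ = a' at e2
    have hE' := congrArg (algebraMap K F) hE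
    have hℓ' := congrArg (algebraMap K F) hℓe
    have e2' := congrArg (algebraMap K F) e2
    simp only [map_add, map_sub, map_mul, map_pow, map_ofNat] at hE' hℓ' e2'
    simp only [cubicForm, map_a₁, map_a₂, map_a₃, map_a₄, map_a₆, Matrix.cons_val_zero,
      Matrix.cons_val_one, Matrix.cons_val, map_add, map_sub, map_mul, map_pow, map_one]
    linear_combination (α + β) ^ 3 * hE' + (α + β) ^ 2 *
      (β * (algebraMap K F a' - algebraMap K F a)) * hℓ'
      - (α + β) * (β * (algebraMap K F a' - algebraMap K F a)) ^ 2 * e2'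

/-- The planes through the points `w` of the cuspidal tangent section: `[… P … O …] - [… -2P … O …]`. -/
theorem tangent_rel {K : Type} [Field K] [DecidableEq K] [IsAlgClosed K] [CharZero K] {n : ℕ}
    (W : Fin n → WeierstrassCurve K) (x : ∀ k, (W k).toAffine.Point) {k l : Fin n} (hkl : k ≠ l)
    (hl : x l = 0) {a b a' b' : K} (h : (W k).toAffine.Nonsingular a b)
    (h' : (W k).toAffine.Nonsingular a' b') (haa : a' ≠ a)
    (hform : ∀ (F : Type) [Field F] [Algebra K F] (α β : F),
        cubicForm ((W k).map (algebraMap K F)) (fun i =>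
          α * algebraMap K F ((![a, b, 1] : Fin 3 → K) i)
            + β * algebraMap K F ((![a', b', 1] : Fin 3 → K) i))
          = algebraMap K F ((a' - a) ^ 3) * α * β ^ 2) :
    planeCycle (joinPlane (Function.update x k (.some a' b' h')))
      - planeCycle (joinPlane (Function.update x k (.some a b h))) ∈ RatPlanes W := by
  obtain ⟨F, _, _, τ, v₁, v₂, hF, hτ0, hv1, hv2, hfin⟩ := exists_line K
  set c : K := (a' - a) ^ 3 with hc
  have hc0 : c ≠ 0 := pow_ne_zero 3 (sub_ne_zero.2 haa)
  have hcF : algebraMap K F c ≠ 0 := by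
    rw [Ne, map_eq_zero_iff _ (algebraMap K F).injective]
    exact hc0
  set p : Fin 3 → K := ![a, b, 1] with hp
  set r : Fin 3 → K := ![a', b', 1] with hr
  -- the family
  let u : Fin 3 → F := fun i => (algebraMap K F c)⁻¹ * τ ^ 3 * algebraMap K F (p i)
    + algebraMap K F (r i)
  let w : Fin n → Fin n → Fin 3 → F := fun i =>
    if i = k then Pi.single k u + Pi.single l (fun q => τ * (![1, 0, 0] : Fin 3 → F) q)
    else Pi.single i (fun q => algebraMap K F (homCoord (x i) q))
  have hwk : w k = Pi.single k u + Pi.single l (fun q => τ * (![1, 0, 0] : Fin 3 → F) q) :=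
    if_pos rfl
  have hwi : ∀ i, i ≠ k → w i = Pi.single i (fun q => algebraMap K F (homCoord (x i) q)) :=
    fun i hi => if_neg hi
  have hz : ∀ v : Place K F, Ev v (0 : F) (0 : K) := by
    intro v
    have := Ev.const v (0 : K)
    rwa [map_zero] at this
  -- the reductions
  set x₁ := Function.update x k (.some a' b' h' : (W k).toAffine.Point) with hx₁
  set x₂ := Function.update x k (.some a b h : (W k).toAffine.Point) with hx₂
  have hx₁k : homCoord (x₁ k) = r := by rw [hx₁, Function.update_self]; rfl
  have hx₂k : homCoord (x₂ k) = p := by rw [hx₂, Function.update_self]; rfl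
  have hx₁i : ∀ i, i ≠ k → x₁ i = x i := fun i hi => Function.update_of_ne hi _ _
  have hx₂i : ∀ i, i ≠ k → x₂ i = x i := fun i hi => Function.update_of_ne hi _ _
  have hsing : ∀ (v : Place K F) (i : Fin n) (g : Fin 3 → F) (g₀ : Fin 3 → K),
      (∀ q, Ev v (g q) (g₀ q)) → ∀ j q, Ev v ((Pi.single i g : Fin n → Fin 3 → F) j q)
        ((Pi.single i g₀ : Fin n → Fin 3 → K) j q) := by
    intro v i g g₀ hg j q
    by_cases hj : j = i
    · subst hj
      rw [Pi.single_eq_same, Pi.single_eq_same]
      exact hg q
    · rw [Pi.single_eq_of_ne hj, Pi.single_eq_of_ne hj]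
      exact hz v
  have hτ3 : Ev v₁ (τ ^ 3) (0 : K) := by
    have := hv1.pow 3
    rwa [zero_pow three_ne_zero] at this
  have hred1 : ∀ i j q, Ev v₁ (w i j q)
      ((Pi.single i (homCoord (x₁ i)) : Fin n → Fin 3 → K) j q) := by
    intro i j q
    by_cases hi : i = k
    · subst hi
      rw [hwk, hx₁k]
      have e1 := hsing v₁ i u r (fun q => by
        have h1 := (((Ev.const v₁ c).inv hc0).mul hτ3).mul (Ev.const v₁ (p q))
        have h2 := h1.add (Ev.const v₁ (r q))
        rw [mul_zero, zero_mul, zero_add] at h2
        exact h2) j q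
      have e2 := hsing v₁ l (fun q => τ * (![1, 0, 0] : Fin 3 → F) q) 0 (fun q => by
        rw [Pi.zero_apply]
        fin_cases q
        · change Ev v₁ (τ * 1) 0
          rw [mul_one]
          exact hv1
        · change Ev v₁ (τ * 0) 0
          rw [mul_zero]
          exact hz v₁
        · change Ev v₁ (τ * 0) 0
          rw [mul_zero]
          exact hz v₁) j q
      have e3 := e1.add e2
      rw [Pi.single_zero] at e3
      simpa using e3
    · rw [hwi i hi, hx₁i i hi]
      exact hsing v₁ i _ _ (fun q => Ev.const v₁ _) j q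
  -- at `v₂` the vector `w k` is scaled
  let s : Fin n → F := fun i => if i = k then algebraMap K F c * τ⁻¹ ^ 3 else 1
  have hs0 : ∀ i, s i ≠ 0 := by
    intro i
    by_cases hi : i = k
    · simp only [s, if_pos hi]
      exact mul_ne_zero hcF (pow_ne_zero 3 (inv_ne_zero hτ0))
    · simp only [s, if_neg hi]
      exact one_ne_zero
  have hred2 : ∀ i j q, Ev v₂ ((s i • w i) j q)
      ((Pi.single i (homCoord (x₂ i)) : Fin n → Fin 3 → K) j q) := by
    intro i j q
    by_cases hi : i = k
    · subst hi
      rw [hx₂k]
      have e0 : s i • w i = Pi.single i (fun q => algebraMap K F (p q)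
          + algebraMap K F c * τ⁻¹ ^ 3 * algebraMap K F (r q))
          + Pi.single l (fun q => algebraMap K F c * τ⁻¹ ^ 2 * (![1, 0, 0] : Fin 3 → F) q) := by
        rw [hwk, smul_add, ← Pi.single_smul', ← Pi.single_smul']
        congr 2
        · funext q
          simp only [s, u, if_true, Pi.smul_apply, smul_eq_mul]
          field_simp
        · funext q
          simp only [s, if_true, Pi.smul_apply, smul_eq_mul]
          field_simp
      rw [e0]
      have e1 := hsing v₂ i (fun q => algebraMap K F (p q)
          + algebraMap K F c * τ⁻¹ ^ 3 * algebraMap K F (r q)) p (fun q => by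
        have h1 := ((Ev.const v₂ c).mul (hv2.pow 3)).mul (Ev.const v₂ (r q))
        have h2 := (Ev.const v₂ (p q)).add h1
        rw [zero_pow three_ne_zero, mul_zero, zero_mul, add_zero] at h2
        exact h2) j q
      have e2 := hsing v₂ l (fun q => algebraMap K F c * τ⁻¹ ^ 2 * (![1, 0, 0] : Fin 3 → F) q) 0
        (fun q => by
          rw [Pi.zero_apply]
          have h1 : Ev v₂ (algebraMap K F c * τ⁻¹ ^ 2) (0 : K) := by
            have := (Ev.const v₂ c).mul (hv2.pow 2)
            rwa [zero_pow two_ne_zero, mul_zero] at this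
          fin_cases q
          · change Ev v₂ (algebraMap K F c * τ⁻¹ ^ 2 * 1) 0
            rw [mul_one]
            exact h1
          · change Ev v₂ (algebraMap K F c * τ⁻¹ ^ 2 * 0) 0
            rw [mul_zero]
            exact hz v₂
          · change Ev v₂ (algebraMap K F c * τ⁻¹ ^ 2 * 0) 0
            rw [mul_zero]
            exact hz v₂) j q
      have e3 := e1.add e2
      rw [Pi.single_zero] at e3
      simpa using e3
    · have e0 : s i • w i = w i := by
        simp only [s, if_neg hi, one_smul]
      rw [e0, hwi i hi, hx₂i i hi]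
      exact hsing v₂ i _ _ (fun q => Ev.const v₂ _) j q
  have hli₁ := blocks_independent (fun i => homCoord (x₁ i)) fun i => homCoord_ne_zero (x₁ i)
  have hli₂ := blocks_independent (fun i => homCoord (x₂ i)) fun i => homCoord_ne_zero (x₂ i)
  have hR1 : reduction v₁ (Submodule.span F (Set.range w)) = joinPlane x₁ :=
    reduction_span hF v₁ w _ hred1 hli₁
  have hR2 : reduction v₂ (Submodule.span F (Set.range w)) = joinPlane x₂ := by
    rw [← span_scaled w s hs0]
    exact reduction_span hF v₂ _ _ hred2 hli₂
  -- the planes of the family are contained in the hypersurface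
  have hV : IsPlaneOn (fun k => (W k).map (algebraMap K F)) (Submodule.span F (Set.range w)) := by
    constructor
    · have h1 := finrank_span_eq_card (linearIndependent_of_reduction hF v₁ w _ hred1 hli₁)
      rw [Fintype.card_fin] at h1
      exact h1
    · intro y hy
      rw [Submodule.mem_span_range_iff_exists_fun] at hy
      obtain ⟨d, rfl⟩ := hy
      have hcoord : ∀ j, (∑ i, d i • w i) j = ∑ i, d i • w i j := by
        intro j
        rw [Finset.sum_apply]
        rfl
      -- the blocks
      have hj : ∀ j, j ≠ k → j ≠ l → (∑ i, d i • w i) j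
          = d j • fun q => algebraMap K F (homCoord (x j) q) := by
        intro j hjk hjl
        rw [hcoord, Finset.sum_eq_single j]
        · rw [hwi j hjk, Pi.single_eq_same]
        · intro i _ hi
          by_cases hik : i = k
          · subst hik
            rw [hwk, Pi.add_apply, Pi.single_eq_of_ne hjk, Pi.single_eq_of_ne hjl, add_zero,
              smul_zero]
          · rw [hwi i hik, Pi.single_eq_of_ne (Ne.symm hi), smul_zero]
        · intro h
          exact absurd (Finset.mem_univ j) h
      have hk : (∑ i, d i • w i) k = d k • u := by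
        rw [hcoord, Finset.sum_eq_single k]
        · rw [hwk, Pi.add_apply, Pi.single_eq_same, Pi.single_eq_of_ne hkl, add_zero]
        · intro i _ hi
          rw [hwi i hi, Pi.single_eq_of_ne (Ne.symm hi), smul_zero]
        · intro h
          exact absurd (Finset.mem_univ k) h
      have hl' : (∑ i, d i • w i) l = ![d k * τ, d l, 0] := by
        rw [hcoord, Finset.sum_eq_add_of_mem k l (Finset.mem_univ k) (Finset.mem_univ l) hkl]
        · rw [hwk, hwi l hkl.symm, Pi.add_apply, Pi.single_eq_of_ne hkl.symm, Pi.single_eq_same,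
            Pi.single_eq_same, hl]
          funext q
          change d k * (0 + τ * (![1, 0, 0] : Fin 3 → F) q)
            + d l * algebraMap K F ((![0, 1, 0] : Fin 3 → K) q) = (![d k * τ, d l, 0] : Fin 3 → F) q
          fin_cases q <;> simp
        · intro i _ hi
          rw [hwi i hi.1, Pi.single_eq_of_ne (Ne.symm hi.2), smul_zero]
      rw [Finset.sum_eq_add_of_mem k l (Finset.mem_univ k) (Finset.mem_univ l) hkl]
      · rw [hk, hl', cubicForm_smul]
        have e1 : cubicForm ((W k).map (algebraMap K F)) u
            = algebraMap K F c * ((algebraMap K F c)⁻¹ * τ ^ 3) * 1 ^ 2 := by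
          rw [← hform F ((algebraMap K F c)⁻¹ * τ ^ 3) 1]
          congr 1
          funext q
          simp only [u, one_mul]
        have e2 : cubicForm ((W l).map (algebraMap K F)) ![d k * τ, d l, 0] = -(d k * τ) ^ 3 := by
          simp [cubicForm]
        rw [e1, e2, mul_inv_cancel_left₀ hcF]
        ring
      · intro j _ hj'
        have e1 : cubicForm ((W j).map (algebraMap K F))
            (fun q => algebraMap K F (homCoord (x j) q)) = 0 := by
          have h1 := congrArg (algebraMap K F) (cubicForm_homCoord (x j))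
          rw [map_zero] at h1
          rw [← h1]
          simp only [cubicForm, map_a₁, map_a₂, map_a₃, map_a₄, map_a₆, map_add, map_sub, map_mul,
            map_pow]
        rw [hj j hj'.1 hj'.2, cubicForm_smul, e1, mul_zero]
  have hmem := AddSubgroup.subset_closure (IsPlaneFamily.mk (W := W) F hF _ hV τ hτ0)
  rw [hfin, hR1, hR2] at hmem
  exact hmem

end Pool.Agent.ZC.CJ
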